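import Pool.Agent.R179.PetI

open Pool.R179.Petrie

namespace Pool.Agent.Results.MP_7f6035_co.PetrieClasses

/-- (a) Every Cartesian product of cubes and crosspolytopes has only acoptic Petrie schemes.
(b), (c) The product of an `n`-cube, `n ≥ 1`, with a `p`-gon, `p ≥ 3`, `p ≠ 4`, has a non-acoptic
Petrie scheme (so the answer to (b) is negative, e.g. for every `4k`-gon with `k ≥ 2`; for `n = 1`
these are the right prisms, among them uniform polytopes, so the answer to (c) is negative too).
(d) The regular star-polytopes have only acoptic Petrie schemes. -/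
theorem result :
    (∀ (m : ℕ) (f : Fin m → CC), OnlyAcoptic (∀ a, (f a).Face)) ∧
    (∀ n p : ℕ, 1 ≤ n → 3 ≤ p → p ≠ 4 → ¬ OnlyAcoptic (Cube n × Gon p)) ∧
    (∀ s ∈ stars, gOnlyAcoptic (gens s)) :=
  ⟨part_a, part_b, part_d⟩

end Pool.Agent.Results.MP_7f6035_co.PetrieClasses
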